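import Pool.Agent.R520.PolyGap2

set_option autoImplicit false

/-!
# No polygonal digraph has a Laplacian spread strictly between 0 and 1

Let `t_ij = d_i + d_j + a_ij + a_ji`. On the complement of the all-ones vector the form `xᵀ L x` is
`-(1/2) ∑ t_ij x_i x_j`, and `t_ij / 2` is its value at `(e_i - e_j)/√2`. If the spread is in `(0, 1)`, the `t_ij` take
exactly two values `κ` and `κ + 1`. As the digraph is polygonal, `2α` and `2β` are sums of two conjugate eigenvalues of
the integer matrix `L`, so they are algebraic integers; they are also eigenvalues of a symmetric rational matrix with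
all its eigenvalues in `[2α, 2β]`, an interval of length less than `2`. A norm argument gives `2α = κ` and
`2β = κ + 1`. So every vector `e_i - e_j` is extremal, which makes every two vertices twins, and all `t_ij` are equal.
-/

namespace Pool.Agent.Results.MP_e61cf5_co.PolygonalGap

open Pool.Agent.R520

/-- No polygonal digraph of order `n ≥ 2` has a Laplacian spread strictly between `0` and `1`. -/
theorem result (V : Type) [Fintype V] [DecidableEq V] (Γ : V → V → Prop) (hn : 2 ≤ Fintype.card V)
    (hloop : ∀ i, ¬ Γ i i) (hp : Polygonal Γ) : ¬ (0 < spread Γ ∧ spread Γ < 1) :=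
  fun h => no_gap Γ hloop hn hp h.1 h.2

end Pool.Agent.Results.MP_e61cf5_co.PolygonalGap
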